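import Pool.Agent.SGK.Stmts

/-!
# SGK, row ROT: rotation of a canonical sequence
-/

noncomputable section

namespace Pool.Agent.SGK.H4

open Pool.Agent.SGE Pool.Agent.SGK

theorem inv {V : Type} {a b v : V} {C ℓ : List V} {S : List (V × List V)}
    (h : Can a b C ((v, ℓ) :: S)) :
    ∃ (P : List V) (p : V) (mid : List V) (q : V) (Q : List V), C = P ++ p :: v :: q :: Q ∧
      ℓ = p :: (mid ++ [q]) ∧ Can a b (P ++ p :: (mid ++ q :: Q)) S ∧ v ≠ a ∧ v ≠ b ∧
      ∀ x ∈ S, x.1 ≠ v := by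
  cases h with
  | step h ha hb hv => exact ⟨_, _, _, _, _, rfl, rfl, h, ha, hb, hv⟩

theorem suf {V : Type} {a b : V} {S₁ : List (V × List V)} :
    ∀ (T : List (V × List V)) (C : List V), Can a b C (T ++ S₁) → ∃ C₁, Can a b C₁ S₁
  | [], C, h => ⟨C, h⟩
  | (v, ℓ) :: T, C, h => by
    obtain ⟨P, p, mid, q, Q, _, _, h', _⟩ := inv h
    exact suf T _ h'

theorem lst (hcb : CbStmt) {V : Type} {a b : V} {C : List V} {S : List (V × List V)}
    (h : Can a b C S) : ∃ X, C = X ++ [b] ∧ b ∉ X := by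
  obtain ⟨_, hnd, ⟨D, hD⟩, _⟩ := hcb h
  refine ⟨a :: D, by rw [hD]; simp, ?_⟩
  rw [hD] at hnd
  have h1 : ((a :: D) ++ [b]).Nodup := by simpa using hnd
  intro hb
  exact (List.nodup_append.mp h1).2.2 b hb b (by simp) rfl

theorem ctx (hcb : CbStmt) {V : Type} {b ω u : V} {C₁ ℓ : List V} {T₁ : List (V × List V)}
    (h : Can b ω C₁ ((u, ℓ) :: T₁)) (hω : ω ∈ ℓ) :
    ∃ (P' : List V) (p' : V) (mid' : List V), ℓ = p' :: (mid' ++ [ω]) ∧ ω ∉ P' ∧ p' ≠ ω ∧
      ω ∉ mid' ∧ C₁ = P' ++ p' :: u :: ω :: [] ∧ Can b ω (P' ++ p' :: (mid' ++ [ω])) T₁ ∧ u ≠ b ∧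
      u ≠ ω ∧ ∀ x ∈ T₁, x.1 ≠ u := by
  obtain ⟨P, p, mid, q, Q, hC, hℓ, h', hub, huω, hu⟩ := inv h
  obtain ⟨X, hX, hωX⟩ := lst hcb h'
  rcases List.eq_nil_or_concat Q with hQ | ⟨Q', z, hQ⟩
  · subst hQ
    have e : (P ++ p :: mid) ++ [q] = X ++ [ω] := by rw [← hX]; simp
    obtain ⟨e1, e2⟩ := List.append_inj' e rfl
    have e3 : q = ω := by simpa using e2
    subst e3
    rw [← e1] at hωX
    simp only [List.mem_append, List.mem_cons, not_or] at hωX
    exact ⟨P, p, mid, hℓ, hωX.1, fun hh => hωX.2.1 hh.symm, hωX.2.2, hC, h', hub, huω, hu⟩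
  · exfalso
    have e : (P ++ p :: (mid ++ q :: Q')) ++ [z] = X ++ [ω] := by
      rw [← hX, hQ]; simp
    obtain ⟨e1, e2⟩ := List.append_inj' e rfl
    apply hωX
    rw [← e1]
    rw [hℓ] at hω
    simp only [List.mem_append, List.mem_cons, List.not_mem_nil, or_false] at hω ⊢
    rcases hω with hω | hω | hω
    · exact Or.inr (Or.inl hω)
    · exact Or.inr (Or.inr (Or.inl hω))
    · exact Or.inr (Or.inr (Or.inr (Or.inl hω)))

theorem hne (hcb : CbStmt) {V : Type} {b ω : V} {C : List V} {S : List (V × List V)}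
    (h : Can b ω C S) (x : V) (ℓ : List V) (hx : (x, ℓ) ∈ S) :
    ∃ (p : V) (r : List V), ℓ = p :: r ∧ p ≠ ω := by
  obtain ⟨T₁, T₂, hS⟩ := List.append_of_mem hx
  subst hS
  obtain ⟨C₁, h1⟩ := suf T₁ C h
  obtain ⟨P, p, mid, q, Q, hC, hℓ, h', _⟩ := inv h1
  obtain ⟨_, hnd, _⟩ := hcb h'
  obtain ⟨X, hX, _⟩ := lst hcb h'
  refine ⟨p, mid ++ [q], hℓ, ?_⟩
  intro hp
  rcases List.eq_nil_or_concat (mid ++ q :: Q) with h0 | ⟨Y, z, hY⟩
  · simp at h0
  · rw [hY] at hX hnd
    have e : (P ++ p :: Y) ++ [z] = X ++ [ω] := by rw [← hX]; simp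
    obtain ⟨e1, e2⟩ := List.append_inj' e rfl
    have e3 : z = ω := by simpa using e2
    have h2 := (List.nodup_append.mp hnd).2.1
    have h3 := (List.nodup_cons.mp h2).1
    apply h3
    rw [hp, ← e3]
    simp

theorem spl {α β : Type} (π : α → Bool) (f : α → β) (l : List α) (L₁ L₂ : List β)
    (h : (l.filter π).map f = L₁ ++ L₂) :
    ∃ l₁ l₂, l = l₁ ++ l₂ ∧ (l₁.filter π).map f = L₁ ∧ (l₂.filter π).map f = L₂ := by
  obtain ⟨m₁, m₂, hm, h1, h2⟩ := List.map_eq_append_iff.mp h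
  obtain ⟨l₁, l₂, hl, h3, h4⟩ := List.filter_eq_append_iff.mp hm
  exact ⟨l₁, l₂, hl, by rw [h3]; exact h1, by rw [h4]; exact h2⟩

theorem splc {α β : Type} (π : α → Bool) (f : α → β) (l : List α) (y : β) (L : List β)
    (h : (l.filter π).map f = y :: L) :
    ∃ l₁ x l₂, l = l₁ ++ x :: l₂ ∧ l₁.filter π = [] ∧ π x = true ∧ f x = y ∧
      (l₂.filter π).map f = L := by
  obtain ⟨x, m, hm, h1, h2⟩ := List.map_eq_cons_iff.mp h
  obtain ⟨l₁, l₂, hl, h3, h4, h5⟩ := List.filter_eq_cons_iff.mp hm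
  refine ⟨l₁, x, l₂, hl, ?_, h4, h1, by rw [h5]; exact h2⟩
  rw [List.filter_eq_nil_iff]
  exact h3

theorem sb_ne {V : Type} {ω v u : V} (h : u ≠ ω) : sb ω v u = u := by
  unfold sb
  rw [if_neg h]

theorem sb_om {V : Type} {ω v : V} : sb ω v ω = v := by
  unfold sb
  rw [if_pos rfl]

theorem sb_map {V : Type} {ω v : V} (L : List V) (h : ω ∉ L) : L.map (sb ω v) = L := by
  have : L.map (sb ω v) = L.map id := by
    refine List.map_congr_left fun u hu => ?_
    rw [sb_ne]
    · rfl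
    · rintro rfl
      exact h hu
  rw [this, List.map_id]

theorem rot (hcb : CbStmt) (_ : DetStmt) (hrst : RstStmt) (hsub : SubStmt) : RotStmt := by
  intro V a b ω C S h
  induction h with
  | base h =>
    intro hωa hωb _
    refine ⟨[(a, [b, ω])], ?_⟩
    constructor
    · have h1 : Can b ω [b, ω] [] := Can.base (Ne.symm hωb)
      exact Can.step (P := []) (Q := []) (mid := []) (p := b) (q := ω) (v := a) h1 h
        (Ne.symm hωa) (by simp)
    · simp
    · intro v ℓ hv hva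
      simp only [List.mem_singleton, Prod.mk.injEq] at hv
      exact absurd hv.1 hva
    · intro ℓ hℓ
      simp only [List.mem_singleton, Prod.mk.injEq] at hℓ
      rw [hℓ.2]
      rfl
    · intro v ℓ w hv hw
      simp only [List.mem_singleton, Prod.mk.injEq] at hv
      rw [hv.2] at hw
      left
      simpa using hw.symm
    · rintro v ⟨ℓ, hℓ⟩
      simp at hℓ
    · intro v ℓ hv
      simp only [List.mem_singleton, Prod.mk.injEq] at hv
      exact Or.inl hv.1
    · intro v ℓ u hv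
      simp at hv
  | @step P Q mid p q v S h ha hb hv ih =>
    intro hωa hωb hωS
    have hvω : v ≠ ω := hωS (v, _) (List.mem_cons_self ..)
    have hωS' : ∀ x ∈ S, x.1 ≠ ω := fun x hx => hωS x (List.mem_cons_of_mem _ hx)
    obtain ⟨S', hRT⟩ := ih hωa hωb hωS'
    obtain ⟨hab, hnd, _, hCmem, hSnd, hSx⟩ := hcb h
    obtain ⟨_, _, _, _, hSnd', _⟩ := hcb hRT.can
    have hdl : (P ++ p :: (mid ++ q :: Q)).dropLast = P ++ p :: (mid ++ (q :: Q).dropLast) := by
      have e1 : P ++ p :: (mid ++ q :: Q) = (P ++ p :: mid) ++ (q :: Q) := by simp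
      rw [e1, List.dropLast_append_of_ne_nil (by simp)]
      simp
    have hord := hRT.ord
    rw [hdl] at hord
    obtain ⟨T₀, T₁, hT01, hT0, hT1⟩ := spl _ _ _ _ _ hord
    obtain ⟨U, ⟨p₀, ℓ⟩, T₅, hT1', hU, hωℓ, hp0, hT5⟩ := splc _ _ _ _ _ hT1
    simp only at hp0
    subst hp0
    have hωℓ' : ω ∈ ℓ := by simpa using hωℓ
    -- the lower part
    obtain ⟨T, S₁, D, hTS, hTm, hS1, hD⟩ : ∃ (T S₁ : List (V × List V)) (D : List V),
        T₅ = T ++ S₁ ∧ (open Classical in (T.filter (fun y => ω ∈ y.2)).map Prod.fst = mid) ∧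
        (open Classical in (S₁.filter (fun y => ω ∈ y.2)).map Prod.fst = (q :: Q).dropLast) ∧
        Can b ω (D ++ [q, ω]) S₁ := by
      rcases List.eq_nil_or_concat Q with hQ | ⟨Q', z, hQ⟩
      · subst hQ
        refine ⟨T₅, [], [], by simp, ?_, by simp, ?_⟩
        · simpa using hT5
        · obtain ⟨X, hX, _⟩ := lst hcb h
          have e : (P ++ p₀ :: mid) ++ [q] = X ++ [b] := by rw [← hX]; simp
          obtain ⟨e1, e2⟩ := List.append_inj' e rfl
          have e3 : q = b := by simpa using e2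
          subst e3
          exact Can.base (Ne.symm hωb)
      · have hdq : (q :: Q).dropLast = q :: Q.dropLast := by
          rw [List.dropLast_cons_of_ne_nil]
          rw [hQ]; simp
        rw [hdq] at hT5 ⊢
        obtain ⟨T', S₁', hTS', hT', hS1'⟩ := spl _ _ _ _ _ hT5
        obtain ⟨U', ⟨q₀, ℓq⟩, S₂, hS1'', hU', hωq, hq0, hS2⟩ := splc _ _ _ _ _ hS1'
        simp only at hq0
        subst hq0
        have hωq' : ω ∈ ℓq := by simpa using hωq
        have hcan : Can b ω [b, a, ω] ((T₀ ++ (U ++ (p₀, ℓ) :: (T' ++ U'))) ++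
            (q₀, ℓq) :: S₂) := by
          have e : (T₀ ++ (U ++ (p₀, ℓ) :: (T' ++ U'))) ++ (q₀, ℓq) :: S₂ = S' := by
            rw [hT01, hT1', hTS', hS1'']
            simp
          rw [e]
          exact hRT.can
        obtain ⟨C₁, hC1⟩ := suf _ _ hcan
        obtain ⟨P'', p'', mid'', _, _, _, _, hC1', _⟩ := ctx hcb hC1 hωq'
        refine ⟨T' ++ U', (q₀, ℓq) :: S₂, P'' ++ [p''], ?_, ?_, ?_, ?_⟩
        · rw [hTS', hS1'']
          simp
        · rw [List.filter_append, hU', List.append_nil]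
          exact hT'
        · rw [List.filter_cons, if_pos hωq, List.map_cons, hS2]
        · rw [hC1'] at hC1
          simpa using hC1
    subst hTS
    -- the upper part
    obtain ⟨T₄, hT4⟩ : ∃ T₄ : List (V × List V), T₄ = T₀ ++ U := ⟨_, rfl⟩
    have hS'eq : S' = T₄ ++ (p₀, ℓ) :: (T ++ S₁) := by
      rw [hT01, hT1', hT4]
      simp
    have hcan4 : Can b ω [b, a, ω] (T₄ ++ (p₀, ℓ) :: (T ++ S₁)) := by
      rw [← hS'eq]
      exact hRT.can
    obtain ⟨C₁, hC1⟩ := suf _ _ hcan4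
    obtain ⟨P', p', mid', hℓ, hωP, hp'ω, hωm, hC1', hcT, hpb, hpω, hpT⟩ := ctx hcb hC1 hωℓ'
    have hvS' : ∀ x ∈ S', x.1 ≠ v := by
      rintro ⟨x, ℓx⟩ hx
      rcases hRT.vx' x ℓx hx with h1 | ⟨ℓ₀, h1⟩
      · intro h2
        exact ha (h2.symm.trans h1)
      · exact hv (x, ℓ₀) h1
    have hpv : v ≠ p₀ := by
      intro h0
      rcases hCmem p₀ (by simp) with h1 | h1 | ⟨x, h1, h2⟩
      · exact ha (h0.trans h1)
      · exact hb (h0.trans h1)
      · exact hv x h1 (h2.trans h0.symm)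
    obtain ⟨T', hT'⟩ : ∃ T' : List (V × List V), T' = T.map (fun y => (y.1, y.2.map (sb ω v))) :=
      ⟨_, rfl⟩
    have hs : Can b ω ((P' ++ p' :: (mid' ++ [ω])).map (sb ω v) ++ [ω])
        (T' ++ (v, [q, ω]) :: S₁) := by
      rw [hT']
      refine hsub hD hb hvω ?_ T _ hcT ?_
      · intro x hx
        exact hvS' x (by rw [hS'eq]; simp [hx])
      · intro x hx
        exact hvS' x (by rw [hS'eq]; simp [hx])
    have hmap : (P' ++ p' :: (mid' ++ [ω])).map (sb ω v) ++ [ω] =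
        P' ++ p' :: ((mid' ++ [v]) ++ ω :: []) := by
      rw [List.map_append, List.map_cons, List.map_append, sb_map P' hωP, sb_map mid' hωm,
        sb_ne hp'ω]
      simp [sb_om]
    rw [hmap] at hs
    have hstep : Can b ω (P' ++ p' :: p₀ :: ω :: [])
        ((p₀, p' :: ((mid' ++ [v]) ++ [ω])) :: (T' ++ (v, [q, ω]) :: S₁)) := by
      refine Can.step hs hpb hpω ?_
      intro x hx
      rw [List.mem_append, List.mem_cons] at hx
      rcases hx with hx | hx | hx
      · rw [hT', List.mem_map] at hx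
        obtain ⟨y, hy, rfl⟩ := hx
        exact hpT y (List.mem_append_left _ hy)
      · rw [hx]
        exact hpv
      · exact hpT x (List.mem_append_right _ hx)
    -- first components of S'
    have hnd4 : ∀ x ∈ T₄, ∀ y ∈ (p₀, ℓ) :: (T ++ S₁), x.1 ≠ y.1 := by
      rw [hS'eq, List.map_append] at hSnd'
      intro x hx y hy
      exact (List.nodup_append.mp hSnd').2.2 x.1 (List.mem_map_of_mem hx) y.1
        (List.mem_map_of_mem hy)
    have hcanN : Can b ω [b, a, ω] (T₄ ++ (p₀, p' :: ((mid' ++ [v]) ++ [ω])) ::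
        (T' ++ (v, [q, ω]) :: S₁)) := by
      rw [hC1'] at hC1
      refine hrst hC1 hstep T₄ _ hcan4 ?_
      intro x hx y hy
      rw [List.mem_cons, List.mem_append, List.mem_cons] at hy
      rcases hy with hy | hy | hy | hy
      · rw [hy]
        exact hnd4 x hx (p₀, ℓ) (List.mem_cons_self ..)
      · rw [hT', List.mem_map] at hy
        obtain ⟨z, hz, rfl⟩ := hy
        exact hnd4 x hx z (List.mem_cons_of_mem _ (List.mem_append_left _ hz))
      · rw [hy]
        exact hvS' x (by rw [hS'eq]; simp [hx])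
      · exact hnd4 x hx y (List.mem_cons_of_mem _ (List.mem_append_right _ hy))
    -- members of the new sequence
    have hmem : ∀ x ℓx, (x, ℓx) ∈ T₄ ++ (p₀, p' :: ((mid' ++ [v]) ++ [ω])) ::
        (T' ++ (v, [q, ω]) :: S₁) → ((x, ℓx) ∈ S' ∧ ((x, ℓx) ∈ T₄ ∨ (x, ℓx) ∈ S₁)) ∨
        (x = p₀ ∧ ℓx = p' :: ((mid' ++ [v]) ++ [ω])) ∨ (x = v ∧ ℓx = [q, ω]) ∨
        ∃ ℓ₂, (x, ℓ₂) ∈ S' ∧ (x, ℓ₂) ∈ T ∧ ℓx = ℓ₂.map (sb ω v) := by
      intro x ℓx hx
      rw [List.mem_append, List.mem_cons, List.mem_append, List.mem_cons] at hx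
      rcases hx with hx | hx | hx | hx | hx
      · exact Or.inl ⟨by rw [hS'eq]; simp [hx], Or.inl hx⟩
      · exact Or.inr (Or.inl (by simpa using hx))
      · rw [hT', List.mem_map] at hx
        obtain ⟨⟨y, ℓy⟩, hy, hyx⟩ := hx
        simp only [Prod.mk.injEq] at hyx
        obtain ⟨h1, h2⟩ := hyx
        subst h1
        exact Or.inr (Or.inr (Or.inr ⟨ℓy, by rw [hS'eq]; simp [hy], hy, h2.symm⟩))
      · exact Or.inr (Or.inr (Or.inl (by simpa using hx)))
      · exact Or.inl ⟨by rw [hS'eq]; simp [hx], Or.inr hx⟩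
    -- transport of old pairs
    have htr : ∀ y ℓy z, (y, ℓy) ∈ S' → z ∈ ℓy → z ≠ ω → ∃ ℓ', (y, ℓ') ∈ T₄ ++
        (p₀, p' :: ((mid' ++ [v]) ++ [ω])) :: (T' ++ (v, [q, ω]) :: S₁) ∧ z ∈ ℓ' := by
      intro y ℓy z hy hz hzω
      rw [hS'eq, List.mem_append, List.mem_cons, List.mem_append] at hy
      rcases hy with hy | hy | hy | hy
      · exact ⟨ℓy, by simp [hy], hz⟩
      · simp only [Prod.mk.injEq] at hy
        obtain ⟨h1, h2⟩ := hy
        subst h1
        refine ⟨p' :: ((mid' ++ [v]) ++ [ω]), by simp, ?_⟩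
        rw [h2, hℓ] at hz
        simp only [List.mem_cons, List.mem_append, List.not_mem_nil, or_false] at hz ⊢
        rcases hz with hz | hz | hz
        · exact Or.inl hz
        · exact Or.inr (Or.inl (Or.inl hz))
        · exact absurd hz hzω
      · refine ⟨ℓy.map (sb ω v), ?_, ?_⟩
        · rw [List.mem_append, List.mem_cons, List.mem_append]
          right; right; left
          rw [hT', List.mem_map]
          exact ⟨(y, ℓy), hy, rfl⟩
        · rw [List.mem_map]
          exact ⟨z, hz, sb_ne hzω⟩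
      · exact ⟨ℓy, by simp [hy], hz⟩
    have hcov : ∀ w x, Cov S w x → Cov ((v, p₀ :: (mid ++ [q])) :: S) w x := by
      rintro w x ⟨p₁, mid₁, q₁, h1, h2⟩
      exact ⟨p₁, mid₁, q₁, List.mem_cons_of_mem _ h1, h2⟩
    have hmidT : ∀ x ℓx, (x, ℓx) ∈ T → ω ∈ ℓx → x ∈ mid := by
      intro x ℓx hx hωx
      rw [← hTm, List.mem_map]
      exact ⟨(x, ℓx), by rw [List.mem_filter]; exact ⟨hx, by simpa using hωx⟩, rfl⟩
    refine ⟨_, hcanN, ?_, ?_, ?_, ?_, ?_, ?_, ?_⟩
    · -- ord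
      have h1 : (open Classical in (T'.filter (fun y => ω ∈ y.2)) = []) := by
        rw [List.filter_eq_nil_iff]
        intro y hy
        rw [hT', List.mem_map] at hy
        obtain ⟨z, hz, rfl⟩ := hy
        simp only [decide_eq_true_eq, List.mem_map, not_exists, not_and]
        intro u hu hsu
        by_cases huω : u = ω
        · subst huω
          rw [sb_om] at hsu
          exact hvω hsu
        · rw [sb_ne huω] at hsu
          exact huω hsu
      have h2 : (open Classical in (T₄.filter (fun y => ω ∈ y.2)).map Prod.fst = P) := by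
        rw [hT4, List.filter_append, hU, List.append_nil]
        exact hT0
      have h3 : (P ++ p₀ :: v :: q :: Q).dropLast = P ++ p₀ :: v :: (q :: Q).dropLast := by
        have e1 : P ++ p₀ :: v :: q :: Q = (P ++ [p₀, v]) ++ (q :: Q) := by simp
        rw [e1, List.dropLast_append_of_ne_nil (by simp)]
        simp
      rw [h3, List.filter_append, List.filter_cons, if_pos (by simp), List.filter_append, h1,
        List.nil_append, List.filter_cons, if_pos (by simp), List.map_append, h2, List.map_cons,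
        List.map_cons, hS1]
    · -- hd
      intro x ℓx hx hxa
      rcases hmem x ℓx hx with ⟨h1, _⟩ | ⟨h1, h2⟩ | ⟨h1, h2⟩ | ⟨ℓ₂, h1, h2, h3⟩
      · obtain ⟨ℓ₀, h4, h5⟩ := hRT.hd x ℓx h1 hxa
        exact ⟨ℓ₀, List.mem_cons_of_mem _ h4, h5⟩
      · obtain ⟨ℓ₀, h4, h5⟩ := hRT.hd x ℓ (by rw [h1, hS'eq]; simp) hxa
        refine ⟨ℓ₀, List.mem_cons_of_mem _ h4, ?_⟩
        rw [h5, hℓ, h2]
        rfl
      · refine ⟨p₀ :: (mid ++ [q]), by rw [h1]; exact List.mem_cons_self .., ?_⟩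
        rw [h2]
        have : p₀ :: (mid ++ [q]) = (p₀ :: mid) ++ [q] := by simp
        rw [this, List.getLast?_append]
        rfl
      · obtain ⟨ℓ₀, h4, h5⟩ := hRT.hd x ℓ₂ h1 hxa
        obtain ⟨p₂, r₂, h6, h7⟩ := hne hcb hRT.can x ℓ₂ h1
        refine ⟨ℓ₀, List.mem_cons_of_mem _ h4, ?_⟩
        rw [h5, h3, h6]
        simp [sb_ne h7]
    · -- hda
      intro ℓx hx
      rcases hmem a ℓx hx with ⟨h1, _⟩ | ⟨h1, h2⟩ | ⟨h1, h2⟩ | ⟨ℓ₂, h1, h2, h3⟩
      · exact hRT.hda ℓx h1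
      · have h4 := hRT.hda ℓ (by rw [h1, hS'eq]; simp)
        rw [hℓ] at h4
        rw [h2]
        exact h4
      · exact absurd h1.symm ha
      · have h4 := hRT.hda ℓ₂ h1
        obtain ⟨p₂, r₂, h6, h7⟩ := hne hcb hRT.can a ℓ₂ h1
        rw [h3]
        rw [h6] at h4 ⊢
        simp only [List.head?_cons, Option.some.injEq] at h4
        subst h4
        simp [sb_ne h7]
    · -- ls
      intro x ℓx w hx hw
      rcases hmem x ℓx hx with ⟨h1, _⟩ | ⟨h1, h2⟩ | ⟨h1, h2⟩ | ⟨ℓ₂, h1, h2, h3⟩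
      · rcases hRT.ls x ℓx w h1 hw with h4 | h4
        · exact Or.inl h4
        · exact Or.inr (hcov _ _ h4)
      · left
        have e : p' :: ((mid' ++ [v]) ++ [ω]) = (p' :: (mid' ++ [v])) ++ [ω] := by simp
        rw [h2, e, List.getLast?_append] at hw
        simpa using hw.symm
      · left
        rw [h2] at hw
        simpa using hw.symm
      · rw [h3, List.getLast?_map] at hw
        obtain ⟨u, hu1, hu2⟩ := Option.map_eq_some_iff.mp hw
        by_cases huω : u = ω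
        · right
          subst huω
          rw [sb_om] at hu2
          subst hu2
          exact ⟨p₀, mid, q, List.mem_cons_self .., hmidT x ℓ₂ h2 (List.mem_of_getLast? hu1)⟩
        · rw [sb_ne huω] at hu2
          subst hu2
          rcases hRT.ls x ℓ₂ u h1 hu1 with h4 | h4
          · exact absurd h4 huω
          · exact Or.inr (hcov _ _ h4)
    · -- vx
      rintro x ⟨ℓx, hx⟩
      rw [List.mem_cons] at hx
      rcases hx with hx | hx
      · simp only [Prod.mk.injEq] at hx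
        exact ⟨[q, ω], by rw [hx.1]; simp⟩
      · obtain ⟨ℓ', h1⟩ := hRT.vx x ⟨ℓx, hx⟩
        obtain ⟨p₂, r₂, h6, h7⟩ := hne hcb hRT.can x ℓ' h1
        obtain ⟨ℓ'', h2, _⟩ := htr x ℓ' p₂ h1 (by rw [h6]; simp) h7
        exact ⟨ℓ'', h2⟩
    · -- vx'
      intro x ℓx hx
      rcases hmem x ℓx hx with ⟨h1, _⟩ | ⟨h1, h2⟩ | ⟨h1, h2⟩ | ⟨ℓ₂, h1, h2, h3⟩
      · rcases hRT.vx' x ℓx h1 with h4 | ⟨ℓ₀, h4⟩
        · exact Or.inl h4
        · exact Or.inr ⟨ℓ₀, List.mem_cons_of_mem _ h4⟩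
      · rcases hRT.vx' x ℓ (by rw [h1, hS'eq]; simp) with h4 | ⟨ℓ₀, h4⟩
        · exact Or.inl h4
        · exact Or.inr ⟨ℓ₀, List.mem_cons_of_mem _ h4⟩
      · exact Or.inr ⟨p₀ :: (mid ++ [q]), by rw [h1]; exact List.mem_cons_self ..⟩
      · rcases hRT.vx' x ℓ₂ h1 with h4 | ⟨ℓ₀, h4⟩
        · exact Or.inl h4
        · exact Or.inr ⟨ℓ₀, List.mem_cons_of_mem _ h4⟩
    · -- ed
      intro x ℓx u hx hu
      rw [List.mem_cons] at hx
      rcases hx with hx | hx
      · simp only [Prod.mk.injEq] at hx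
        obtain ⟨h1, h2⟩ := hx
        subst h1
        rw [h2] at hu
        simp only [List.mem_cons, List.mem_append, List.not_mem_nil, or_false] at hu
        rcases hu with hu | hu | hu
        · right
          exact ⟨p' :: ((mid' ++ [x]) ++ [ω]), by rw [hu]; simp, by simp⟩
        · right
          rw [← hTm, List.mem_map] at hu
          obtain ⟨⟨u', ℓu⟩, h3, h4⟩ := hu
          simp only at h4
          subst h4
          rw [List.mem_filter] at h3
          obtain ⟨h5, h6⟩ := h3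
          have h7 : ω ∈ ℓu := by simpa using h6
          refine ⟨ℓu.map (sb ω x), ?_, ?_⟩
          · rw [List.mem_append, List.mem_cons, List.mem_append]
            right; right; left
            rw [hT', List.mem_map]
            exact ⟨(u', ℓu), h5, rfl⟩
          · rw [List.mem_map]
            exact ⟨ω, h7, sb_om⟩
        · left
          exact ⟨[q, ω], by simp, by rw [hu]; simp⟩
      · have hxω : x ≠ ω := hωS' _ hx
        have huω : u ≠ ω := by
          intro h0
          rcases (hSx _ hx).2.2.2.2.2 u hu with h1 | h1 | ⟨y, h1, h2⟩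
          · exact hωa (h0.symm.trans h1)
          · exact hωb (h0.symm.trans h1)
          · exact hωS' y h1 (h2.trans h0)
        rcases hRT.ed x ℓx u hx hu with ⟨ℓ', h1, h2⟩ | ⟨ℓ', h1, h2⟩
        · left
          exact htr x ℓ' u h1 h2 huω
        · right
          exact htr u ℓ' x h1 h2 hxω

end Pool.Agent.SGK.H4
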